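import Pool.Agent.X39.KM.Comp
import Pool.Agent.H922R2.R16
import Pool.Agent.H938R2.FG.PE

/-!
# Trapezoidal pairs for which the generic fibre of a component is rational, or a generic curve

Conditions 1, 4, 5 of the problem force the bracket to vanish as soon as, for some composition of the
map `(F, G)` with itself and with arbitrary Keller maps, the generic fibre of the first component is a
rational curve, or all fibres of this component are irreducible and its generic fibre has a smooth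
affine plane model with squarefree weighted leading form (for instance a smooth hyperelliptic or
superelliptic equation, or a smooth plane curve transversal to the line at infinity), whose coordinate
functions are polynomials.
-/

set_option autoImplicit false

namespace Pool.Agent.Results.MP_2d59ee_ag.GenericFibre

open MvPolynomial Pool.Agent.X39.KM

/-- Compositions (any number, any order) of `φ` and of endomorphisms whose Jacobian determinant is a
nonzero constant. -/
noncomputable def Words (φ : PC →ₐ[ℂ] PC) : Submonoid (PC →ₐ[ℂ] PC) :=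
  Submonoid.closure (insert φ {η | ∃ c : ℂ, c ≠ 0 ∧
    pderiv 0 (η (X 0)) * pderiv 1 (η (X 1)) - pderiv 1 (η (X 0)) * pderiv 0 (η (X 1)) = C c})

/-- The inclusion of the polynomials in the field of rational functions. -/
noncomputable def inc (p : PC) : FractionRing PC := algebraMap PC (FractionRing PC) p

/-- The generic fibre of `u` is rational: `ℂ(x, y) = ℂ(u, T)` for some rational function `T`. -/
def Rational (u : PC) : Prop :=
  ∃ T : FractionRing PC, IntermediateField.adjoin ℂ {inc u, T} = ⊤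

/-- All relations between `s` and `t` over the field `K` are multiples of `Ψ`. -/
def Relations {K L : Type} [Field K] [Field L] [Algebra K L] (Ψ : MvPolynomial (Fin 2) K)
    (s t : L) : Prop :=
  ∀ H : MvPolynomial (Fin 2) K, Ψ ∣ H ↔ aeval ![s, t] H = 0

/-- The affine curve `Ψ = 0` over the field `K` is smooth and the leading form of `Ψ` for some positive
weights is squarefree. -/
def Regular {K : Type} [Field K] (Ψ : MvPolynomial (Fin 2) K) : Prop :=
  Ideal.span {Ψ, pderiv 0 Ψ, pderiv 1 Ψ} = ⊤ ∧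
    ∃ e : Fin 2 → ℕ, (∀ i, 0 < e i) ∧
      Squarefree (weightedHomogeneousComponent e (weightedTotalDegree e Ψ) Ψ)

/-- All fibres of `u` are irreducible, and its generic fibre has a smooth affine plane model `Ψ = 0`
over `ℂ(u)`, whose coordinate functions `w₁`, `w₂` are polynomials, such that the leading form of `Ψ`
for some positive weights is squarefree. -/
def SmoothModel (u : PC) : Prop :=
  (∀ c : ℂ, Irreducible (u - C c)) ∧
  ∃ (w₁ w₂ : PC) (Ψ : MvPolynomial (Fin 2) (IntermediateField.adjoin ℂ {inc u})),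
    Relations Ψ (inc w₁) (inc w₂) ∧ Regular Ψ ∧
    IntermediateField.adjoin ℂ {inc u, inc w₁, inc w₂} = ⊤

theorem surj_rational (Θ : PC →ₐ[ℂ] PC) (hΘ : Kel Θ) (h : Rational (Θ (X 0))) :
    Function.Surjective Θ := by
  obtain ⟨T, hT⟩ := h
  have e := end_eq Θ
  have h1 : map (algebraMap ℂ ℂ) (Θ (X 0)) = Θ (X 0) := by
    rw [Algebra.algebraMap_self, MvPolynomial.map_id]
  have h2 := Pool.Agent.H922R2.R.R_any (E := ℂ) (fun i => Θ (X i)) ((kel_iff Θ).1 hΘ) T (by
    rw [h1]; exact hT)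
  have h3 : (aeval (fun i => Θ (X i)) : PC →ₐ[ℂ] PC).range = ⊤ := h2
  rw [← e, AlgHom.range_eq_top] at h3
  exact h3

theorem surj_smooth (Θ : PC →ₐ[ℂ] PC) (hΘ : Kel Θ) (h : SmoothModel (Θ (X 0))) :
    Function.Surjective Θ := by
  obtain ⟨hirr, w₁, w₂, Ψ, hker, ⟨hsm, e, he, hlead⟩, hgen⟩ := h
  obtain ⟨c, hc, hj⟩ := hΘ
  have hJ : Pool.Agent.H922R2.R.Jb (Θ (X 0)) (C c⁻¹ * Θ (X 1)) = 1 := by
    unfold Pool.Agent.H922R2.R.Jb
    rw [pderiv_C_mul, pderiv_C_mul]
    have h1 : pderiv 0 (Θ (X 0)) * (C c⁻¹ * pderiv 1 (Θ (X 1))) -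
        pderiv 1 (Θ (X 0)) * (C c⁻¹ * pderiv 0 (Θ (X 1))) = C c⁻¹ * jd Θ := by
      unfold jd; ring
    rw [h1, hj, ← C_mul, inv_mul_cancel₀ hc, C_1]
  have hb := Pool.Agent.H938R2.SP.PC_closed (Θ (X 0)) (C c⁻¹ * Θ (X 1)) hJ hirr w₁ w₂ Ψ hker hsm
    hgen e he hlead
  have h2 : (aeval ![Θ (X 0), C c⁻¹ * Θ (X 1)] : PC →ₐ[ℂ] PC) =
      Θ.comp (aeval ![X 0, C c⁻¹ * X 1]) := by
    apply MvPolynomial.algHom_ext
    intro i
    fin_cases i
    · simp
    · simp
  rw [h2] at hb
  intro p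
  obtain ⟨q, hq⟩ := hb.2 p
  exact ⟨_, hq⟩

/-- Let `a, b ≥ 2` be coprime, let `a` divide `m, n > 0` and let `F, G` be complex polynomials whose
Newton polygons are the trapezoids `T_{m,n}` and `T_{bm/a,bn/a}` and whose bracket is constant. Let
`φ` be the endomorphism `x ↦ F`, `y ↦ G` of `ℂ[x, y]` and let `Θ = α φ β`, where `α`, `β` are
compositions of `φ` and of endomorphisms whose Jacobian determinant is a nonzero constant (in any
number and order). If the generic fibre of the polynomial `Θ(x)` is rational, or if `Θ(x)` has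
irreducible fibres and a smooth plane model of its generic fibre as above, then `[F, G] = 0`. -/
theorem result (a b m n : ℕ) (hm : 0 < m) (hn : 0 < n) (ham : a ∣ m) (han : a ∣ n)
    (hab : Nat.gcd a b = 1) (ha : 2 ≤ a) (hb : 2 ≤ b)
    (F G : MvPolynomial (Fin 2) ℂ)
    (h1 : convexHull ℝ (insert ((0:ℝ), (0:ℝ))
        ((fun d : Fin 2 →₀ ℕ => ((d 0 : ℝ), (d 1 : ℝ))) '' (↑F.support : Set (Fin 2 →₀ ℕ))))
        = {p : ℝ × ℝ | 0 ≤ p.2 ∧ p.2 ≤ (n : ℝ) ∧ 0 ≤ p.1 ∧ p.1 ≤ (m : ℝ) + (n : ℝ) - p.2})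
    (h4 : convexHull ℝ (insert ((0:ℝ), (0:ℝ))
        ((fun d : Fin 2 →₀ ℕ => ((d 0 : ℝ), (d 1 : ℝ))) '' (↑G.support : Set (Fin 2 →₀ ℕ))))
        = {p : ℝ × ℝ | 0 ≤ p.2 ∧ p.2 ≤ ((b * n / a : ℕ) : ℝ) ∧ 0 ≤ p.1 ∧
            p.1 ≤ ((b * m / a : ℕ) : ℝ) + ((b * n / a : ℕ) : ℝ) - p.2})
    (h5 : ∃ c : ℂ, pderiv 0 F * pderiv 1 G - pderiv 1 F * pderiv 0 G = C c)
    (φ : MvPolynomial (Fin 2) ℂ →ₐ[ℂ] MvPolynomial (Fin 2) ℂ) (hφ : φ = aeval ![F, G])
    (h : ∃ α ∈ Words φ, ∃ β ∈ Words φ,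
      Rational ((α * φ * β) (X 0)) ∨ SmoothModel ((α * φ * β) (X 0))) :
    pderiv 0 F * pderiv 1 G - pderiv 1 F * pderiv 0 G = 0 := by
  subst hφ
  refine trap_zero hm hn ham han hab ha hb h1 h4 h5 fun hK => ?_
  obtain ⟨α, hα, β, hβ, h⟩ := h
  have hKα : Kel α := kel_of_mem hK hα
  have hKΘ := (hKα.mul hK).mul (kel_of_mem hK hβ)
  rcases h with h | h
  · exact surj_mid hKα (surj_rational _ hKΘ h)
  · exact surj_mid hKα (surj_smooth _ hKΘ h)

end Pool.Agent.Results.MP_2d59ee_ag.GenericFibre
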