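import Pool.Agent.X39.KM.Comp
import Pool.Agent.H928R2.FolMain

/-!
# Trapezoidal pairs preserving a foliation

Conditions 1, 4, 5 of the problem force the bracket to vanish as soon as some composition of the
map `(F, G)` with itself and with arbitrary Keller maps of the plane, in which `(F, G)` occurs,
preserves an algebraic foliation of the plane (for instance a pencil of curves, or the level curves of
a polynomial or of a rational function).
-/

set_option autoImplicit false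

namespace Pool.Agent.Results.MP_2d59ee_ag.InvariantFoliation

open MvPolynomial Pool.Agent.X39.KM

/-- A polynomial endomorphism preserving a foliation, with a nonzero constant Jacobian determinant,
is surjective. -/
theorem surj (Θ : PC →ₐ[ℂ] PC) (hΘ : Kel Θ) (A B : PC) (hAB : A ≠ 0 ∨ B ≠ 0)
    (hinv : (Θ A * pderiv 0 (Θ (X 0)) + Θ B * pderiv 0 (Θ (X 1))) * B =
      (Θ A * pderiv 1 (Θ (X 0)) + Θ B * pderiv 1 (Θ (X 1))) * A) : Function.Surjective Θ := by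
  have e := end_eq Θ
  obtain ⟨G', hG'⟩ := Pool.Agent.H928R2.Pen.foliation (fun i => Θ (X i)) ((kel_iff Θ).1 hΘ) A B hAB
    (by rw [← e]; exact hinv)
  rw [← e] at hG'
  intro p
  refine ⟨aeval G' p, ?_⟩
  have h1 : Θ.comp (aeval G') = AlgHom.id ℂ PC := by
    apply MvPolynomial.algHom_ext
    intro i
    rw [AlgHom.comp_apply, aeval_X, hG']
    rfl
  exact congrArg (fun f : PC →ₐ[ℂ] PC => f p) h1

/-- Let `a, b ≥ 2` be coprime, let `a` divide `m, n > 0` and let `F, G` be complex polynomials whose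
Newton polygons are the trapezoids `T_{m,n}` and `T_{bm/a,bn/a}` and whose bracket is constant. Let
`φ` be the endomorphism `x ↦ F`, `y ↦ G` of `ℂ[x, y]` and let `α`, `β` be compositions of `φ` and of
endomorphisms whose Jacobian determinant is a nonzero constant (in any number and order). If the
composition `Θ = α φ β` preserves the foliation given by a nonzero polynomial differential form
`A dx + B dy`, that is, `Θ(A) dΘ(x) + Θ(B) dΘ(y)` is proportional to `A dx + B dy`, then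
`[F, G] = 0`. -/
theorem result (a b m n : ℕ) (hm : 0 < m) (hn : 0 < n) (ham : a ∣ m) (han : a ∣ n)
    (hab : Nat.gcd a b = 1) (ha : 2 ≤ a) (hb : 2 ≤ b)
    (F G : MvPolynomial (Fin 2) ℂ)
    (h1 : convexHull ℝ (insert ((0:ℝ), (0:ℝ))
        ((fun d : Fin 2 →₀ ℕ => ((d 0 : ℝ), (d 1 : ℝ))) '' (↑F.support : Set (Fin 2 →₀ ℕ))))
        = {p : ℝ × ℝ | 0 ≤ p.2 ∧ p.2 ≤ (n : ℝ) ∧ 0 ≤ p.1 ∧ p.1 ≤ (m : ℝ) + (n : ℝ) - p.2})
    (h4 : convexHull ℝ (insert ((0:ℝ), (0:ℝ))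
        ((fun d : Fin 2 →₀ ℕ => ((d 0 : ℝ), (d 1 : ℝ))) '' (↑G.support : Set (Fin 2 →₀ ℕ))))
        = {p : ℝ × ℝ | 0 ≤ p.2 ∧ p.2 ≤ ((b * n / a : ℕ) : ℝ) ∧ 0 ≤ p.1 ∧
            p.1 ≤ ((b * m / a : ℕ) : ℝ) + ((b * n / a : ℕ) : ℝ) - p.2})
    (h5 : ∃ c : ℂ, pderiv 0 F * pderiv 1 G - pderiv 1 F * pderiv 0 G = C c)
    (φ α β Θ : MvPolynomial (Fin 2) ℂ →ₐ[ℂ] MvPolynomial (Fin 2) ℂ)
    (hφ : φ = aeval ![F, G])
    (hα : α ∈ Submonoid.closure (insert φ {η | ∃ c : ℂ, c ≠ 0 ∧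
      pderiv 0 (η (X 0)) * pderiv 1 (η (X 1)) - pderiv 1 (η (X 0)) * pderiv 0 (η (X 1)) = C c}))
    (hβ : β ∈ Submonoid.closure (insert φ {η | ∃ c : ℂ, c ≠ 0 ∧
      pderiv 0 (η (X 0)) * pderiv 1 (η (X 1)) - pderiv 1 (η (X 0)) * pderiv 0 (η (X 1)) = C c}))
    (hΘ : Θ = α * φ * β) (A B : MvPolynomial (Fin 2) ℂ) (hAB : A ≠ 0 ∨ B ≠ 0)
    (hinv : (Θ A * pderiv 0 (Θ (X 0)) + Θ B * pderiv 0 (Θ (X 1))) * B =
      (Θ A * pderiv 1 (Θ (X 0)) + Θ B * pderiv 1 (Θ (X 1))) * A) :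
    pderiv 0 F * pderiv 1 G - pderiv 1 F * pderiv 0 G = 0 := by
  subst hφ hΘ
  refine trap_zero hm hn ham han hab ha hb h1 h4 h5 fun hK => ?_
  have hKα : Kel α := kel_of_mem hK hα
  have hKβ : Kel β := kel_of_mem hK hβ
  exact surj_mid hKα (surj _ ((hKα.mul hK).mul hKβ) A B hAB hinv)

end Pool.Agent.Results.MP_2d59ee_ag.InvariantFoliation
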