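import Pool.Agent.X39.KM.Comp
import Pool.Agent.W420.OPC.Concl2
import Pool.Agent.H922R2.OPC.Concl
import Pool.Agent.H922R2.OPC.Final2

/-!
# Trapezoidal pairs and curves with one place at infinity

Conditions 1, 4, 5 of the problem force the bracket to vanish as soon as, for some composition of the
map `(F, G)` with itself and with arbitrary Keller maps, a curve with one place at infinity is a
connected component of the preimage of a curve with one place at infinity, or is mapped isomorphically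
onto such a curve.
-/

set_option autoImplicit false

namespace Pool.Agent.Results.MP_2d59ee_ag.OnePlaceCurves

open MvPolynomial Pool.Agent.X39.KM

/-- Compositions (any number, any order) of `φ` and of endomorphisms whose Jacobian determinant is a
nonzero constant. -/
noncomputable def Words (φ : PC →ₐ[ℂ] PC) : Submonoid (PC →ₐ[ℂ] PC) :=
  Submonoid.closure (insert φ {η | ∃ c : ℂ, c ≠ 0 ∧
    pderiv 0 (η (X 0)) * pderiv 1 (η (X 1)) - pderiv 1 (η (X 0)) * pderiv 0 (η (X 1)) = C c})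

/-- The substitution `t ↦ c t` for Laurent series in `t` with coefficients in `ℂ[λ]`. -/
noncomputable def rot (c : ℂ) (h : LaurentSeries (Polynomial ℂ)) : LaurentSeries (Polynomial ℂ) where
  coeff i := Polynomial.C (c ^ i) * h.coeff i
  isPWO_support' := h.isPWO_support.mono (by
    intro i hi h0
    exact hi (by simp only [h0, mul_zero]))

/-- The polynomial `f` has one place at infinity: in suitable coordinates (after an automorphism `Φ` of
`ℂ[x, y]`) there are `n > 0`, a primitive `n`-th root of unity `ζ` and a Laurent series `φ(λ, t)` in `t`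
with coefficients in `ℂ[λ]` such that `f(t ^ (-n), Y) - λ = ∏ (Y - φ(λ, ζ ^ i t))`, the product over
`0 ≤ i < n`. -/
def OnePlace (f : PC) : Prop :=
  ∃ (Φ : PC ≃ₐ[ℂ] PC) (n : ℕ) (φ : LaurentSeries (Polynomial ℂ)) (ζ : ℂ), 0 < n ∧
    IsPrimitiveRoot ζ n ∧
    aeval ![Polynomial.C (HahnSeries.single (-(n : ℤ)) (1 : Polynomial ℂ)),
        (Polynomial.X : Polynomial (LaurentSeries (Polynomial ℂ)))] (Φ f) -
        Polynomial.C (HahnSeries.single 0 Polynomial.X) =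
      ∏ i ∈ Finset.range n, (Polynomial.X - Polynomial.C (rot (ζ ^ i) φ))

/-- Some curve with one place at infinity is a connected component of the preimage under `Θ` of a
curve with one place at infinity: `f₂(Θ(x), Θ(y)) = f₁ r`, where `f₁` and `r` are comaximal. -/
def Component (Θ : PC →ₐ[ℂ] PC) : Prop :=
  ∃ f₁ f₂ r : PC, OnePlace f₁ ∧ OnePlace f₂ ∧ Θ f₂ = f₁ * r ∧ ∃ u v, u * f₁ + v * r = 1

/-- Some curve `f₁ = 0` with one place at infinity is mapped isomorphically onto a curve `f₂ = 0` with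
one place at infinity: `f₁` divides `f₂(Θ(x), Θ(y))` and every polynomial is modulo `f₁` in the image of
`Θ`. -/
def Isomorphic (Θ : PC →ₐ[ℂ] PC) : Prop :=
  ∃ f₁ f₂ : PC, OnePlace f₁ ∧ OnePlace f₂ ∧ f₁ ∣ Θ f₂ ∧ ∀ h : PC, ∃ h' : PC, f₁ ∣ h - Θ h'

theorem surj_of_inv (Θ : PC →ₐ[ℂ] PC) (G : Fin 2 → PC)
    (hG : ∀ i, aeval ![Θ (X 0), Θ (X 1)] (G i) = X i) : Function.Surjective Θ := by
  have e : Θ = aeval ![Θ (X 0), Θ (X 1)] := by
    apply MvPolynomial.algHom_ext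
    intro i
    fin_cases i <;> simp
  rw [← e] at hG
  intro p
  refine ⟨aeval G p, ?_⟩
  have h1 : Θ.comp (aeval G) = AlgHom.id ℂ PC := by
    apply MvPolynomial.algHom_ext
    intro i
    rw [AlgHom.comp_apply, aeval_X, hG]
    rfl
  exact congrArg (fun f : PC →ₐ[ℂ] PC => f p) h1

theorem sb_eq (Θ : PC →ₐ[ℂ] PC) (p : PC) :
    Pool.Agent.H922R2.OPC.sb (Θ (X 0)) (Θ (X 1)) p = Θ p :=
  congrArg (fun f : PC →ₐ[ℂ] PC => f p) (Pool.Agent.H922R2.OPC.sb_eq Θ)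

theorem Kel.jac {Θ : PC →ₐ[ℂ] PC} (h : Kel Θ) :
    IsUnit (Pool.Agent.H922R2.OPC.jac (Θ (X 0)) (Θ (X 1))) := by
  obtain ⟨c, hc, h⟩ := h
  have h1 : Pool.Agent.H922R2.OPC.jac (Θ (X 0)) (Θ (X 1)) = C c := h
  rw [h1]
  exact (isUnit_iff_ne_zero.2 hc).map C

theorem surj_component (Θ : PC →ₐ[ℂ] PC) (hΘ : Kel Θ) (h : Component Θ) : Function.Surjective Θ := by
  obtain ⟨f₁, f₂, r, ⟨Φ₁, n₁, φ₁, ζ₁, h₁⟩, ⟨Φ₂, n₂, φ₂, ζ₂, h₂⟩, hr, huv⟩ := h
  obtain ⟨G, hG, -⟩ := Pool.Agent.W420.OPC.concl2 (Pool.Agent.H922R2.OPC.mods ℂ) (Θ (X 0)) (Θ (X 1))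
    f₁ f₂ r (Kel.jac hΘ) Φ₁ Φ₂ n₁ n₂ φ₁ φ₂ ζ₁ ζ₂ h₁ h₂ (by rw [sb_eq]; exact hr) huv
  exact surj_of_inv Θ G hG

theorem surj_isomorphic (Θ : PC →ₐ[ℂ] PC) (hΘ : Kel Θ) (h : Isomorphic Θ) :
    Function.Surjective Θ := by
  obtain ⟨f₁, f₂, ⟨Φ₁, n₁, φ₁, ζ₁, h₁⟩, ⟨Φ₂, n₂, φ₂, ζ₂, h₂⟩, hr, hs⟩ := h
  obtain ⟨G, hG, -⟩ := Pool.Agent.H922R2.OPC.concl (Pool.Agent.H922R2.OPC.mods ℂ) (Θ (X 0)) (Θ (X 1))
    f₁ f₂ (Kel.jac hΘ) Φ₁ Φ₂ n₁ n₂ φ₁ φ₂ ζ₁ ζ₂ h₁ h₂ (by rw [sb_eq]; exact hr) (fun h => by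
      obtain ⟨h', hh⟩ := hs h
      exact ⟨h', by rw [sb_eq]; exact hh⟩)
  exact surj_of_inv Θ G hG

/-- Let `a, b ≥ 2` be coprime, let `a` divide `m, n > 0` and let `F, G` be complex polynomials whose
Newton polygons are the trapezoids `T_{m,n}` and `T_{bm/a,bn/a}` and whose bracket is constant. Let
`φ` be the endomorphism `x ↦ F`, `y ↦ G` of `ℂ[x, y]` and let `Θ = α φ β`, where `α`, `β` are
compositions of `φ` and of endomorphisms whose Jacobian determinant is a nonzero constant (in any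
number and order). If a curve with one place at infinity is a connected component of the preimage under
the map `(Θ(x), Θ(y))` of a curve with one place at infinity, or is mapped isomorphically onto such a
curve by this map, then `[F, G] = 0`. -/
theorem result (a b m n : ℕ) (hm : 0 < m) (hn : 0 < n) (ham : a ∣ m) (han : a ∣ n)
    (hab : Nat.gcd a b = 1) (ha : 2 ≤ a) (hb : 2 ≤ b)
    (F G : MvPolynomial (Fin 2) ℂ)
    (h1 : convexHull ℝ (insert ((0:ℝ), (0:ℝ))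
        ((fun d : Fin 2 →₀ ℕ => ((d 0 : ℝ), (d 1 : ℝ))) '' (↑F.support : Set (Fin 2 →₀ ℕ))))
        = {p : ℝ × ℝ | 0 ≤ p.2 ∧ p.2 ≤ (n : ℝ) ∧ 0 ≤ p.1 ∧ p.1 ≤ (m : ℝ) + (n : ℝ) - p.2})
    (h4 : convexHull ℝ (insert ((0:ℝ), (0:ℝ))
        ((fun d : Fin 2 →₀ ℕ => ((d 0 : ℝ), (d 1 : ℝ))) '' (↑G.support : Set (Fin 2 →₀ ℕ))))
        = {p : ℝ × ℝ | 0 ≤ p.2 ∧ p.2 ≤ ((b * n / a : ℕ) : ℝ) ∧ 0 ≤ p.1 ∧
            p.1 ≤ ((b * m / a : ℕ) : ℝ) + ((b * n / a : ℕ) : ℝ) - p.2})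
    (h5 : ∃ c : ℂ, pderiv 0 F * pderiv 1 G - pderiv 1 F * pderiv 0 G = C c)
    (φ : MvPolynomial (Fin 2) ℂ →ₐ[ℂ] MvPolynomial (Fin 2) ℂ) (hφ : φ = aeval ![F, G])
    (h : ∃ α ∈ Words φ, ∃ β ∈ Words φ, Component (α * φ * β) ∨ Isomorphic (α * φ * β)) :
    pderiv 0 F * pderiv 1 G - pderiv 1 F * pderiv 0 G = 0 := by
  subst hφ
  refine trap_zero hm hn ham han hab ha hb h1 h4 h5 fun hK => ?_
  obtain ⟨α, hα, β, hβ, h⟩ := h
  have hKα : Kel α := kel_of_mem hK hα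
  have hKΘ := (hKα.mul hK).mul (kel_of_mem hK hβ)
  rcases h with h | h
  · exact surj_mid hKα (surj_component _ hKΘ h)
  · exact surj_mid hKα (surj_isomorphic _ hKΘ h)

end Pool.Agent.Results.MP_2d59ee_ag.OnePlaceCurves
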