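import Pool.Agent.X39.KM.Comp
import Pool.Agent.X39.KM.Curve
import Pool.Agent.X39.KM.Growth
import Pool.Agent.H922R2.K24

/-!
# Trapezoidal pairs with symmetries, with a symmetric branch curve, or with slow degree growth

Conditions 1, 4, 5 of the problem force the bracket to vanish as soon as (1) the image of a
composition of the map `(F, G)` with itself and with arbitrary Keller maps has a symmetry of infinite
order, or (2) its branch curve has a symmetry of infinite order or is invariant under a vector field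
which is linear in one of the coordinates, or (3) the degrees of the images of one nonconstant
polynomial under such compositions grow slowly.
-/

set_option autoImplicit false

namespace Pool.Agent.Results.MP_2d59ee_ag.SymmetryBranchGrowth

open MvPolynomial Pool.Agent.X39.KM

/-- Compositions (any number, any order) of `φ` and of endomorphisms whose Jacobian determinant is a
nonzero constant. -/
noncomputable def Words (φ : PC →ₐ[ℂ] PC) : Submonoid (PC →ₐ[ℂ] PC) :=
  Submonoid.closure (insert φ {η | ∃ c : ℂ, c ≠ 0 ∧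
    pderiv 0 (η (X 0)) * pderiv 1 (η (X 1)) - pderiv 1 (η (X 0)) * pderiv 0 (η (X 1)) = C c})

/-- The image of `Θ` is mapped into itself by an automorphism of infinite order. -/
def InfiniteSymmetry (Θ : PC →ₐ[ℂ] PC) : Prop :=
  ∃ σ : PC ≃ₐ[ℂ] PC, (∀ k : ℕ, 0 < k → σ ^ k ≠ 1) ∧ ∀ i, σ (Θ (X i)) ∈ Θ.range

/-- For a field `M` between `ℂ(Θ(x), Θ(y))` and `ℂ(x, y)`, larger than the first or equal to the
second of these fields, the integral closure of the image of `Θ` in `M` is unramified outside of a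
curve `D = 0` with symmetries. -/
def SymmetricBranchCurve (Θ : PC →ₐ[ℂ] PC) : Prop :=
  ∃ (M : IntermediateField ℂ (FractionRing PC)) (D : PC), D ≠ 0 ∧
    (∀ i, algebraMap PC (FractionRing PC) (Θ (X i)) ∈ M) ∧
    (M = ⊤ ∨ ∃ z ∈ M, z ∉ IntermediateField.adjoin ℂ {algebraMap PC (FractionRing PC) (Θ (X 0)),
      algebraMap PC (FractionRing PC) (Θ (X 1))}) ∧
    BranchIn Θ M D ∧ Symm D

/-- A Keller endomorphism whose image is mapped into itself by an automorphism of infinite order is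
surjective. -/
theorem surj_symm (Θ : PC →ₐ[ℂ] PC) (hΘ : Kel Θ) (h : InfiniteSymmetry Θ) :
    Function.Surjective Θ := by
  obtain ⟨σ, hσ, h⟩ := h
  have e := end_eq Θ
  have h1 : Pool.Agent.H922R2.SS (fun i => Θ (X i)) = ⊤ := by
    refine Pool.Agent.H922R2.main_any ((kel_iff Θ).1 hΘ) σ hσ fun i => ?_
    show σ (Θ (X i)) ∈ (aeval (fun i => Θ (X i)) : PC →ₐ[ℂ] PC).range
    rw [← e]
    exact h i
  have h2 : (aeval (fun i => Θ (X i)) : PC →ₐ[ℂ] PC).range = ⊤ := h1
  rw [← e, AlgHom.range_eq_top] at h2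
  exact h2

theorem surj_branch (Θ : PC →ₐ[ℂ] PC) (hΘ : Kel Θ) (h : SymmetricBranchCurve Θ) :
    Function.Surjective Θ := by
  obtain ⟨M, D, hD, hM, hM', hb, hs⟩ := h
  rcases hM' with rfl | ⟨z, hz, hz'⟩
  · exact curve_top hΘ D hD hb hs
  · exact absurd (curve hΘ M hM D hD hb hs z hz) hz'

/-- Let `a, b ≥ 2` be coprime, let `a` divide `m, n > 0` and let `F, G` be complex polynomials whose
Newton polygons are the trapezoids `T_{m,n}` and `T_{bm/a,bn/a}` and whose bracket is constant. Let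
`φ` be the endomorphism `x ↦ F`, `y ↦ G` of `ℂ[x, y]`. Then `[F, G] = 0` in each of the following
cases.

1. There is `Θ = α φ β` with `α`, `β` in `Words φ` such that the image of `Θ` is mapped into itself by
an automorphism of infinite order of `ℂ[x, y]`.
2. There is such `Θ` with a symmetric branch curve.
3. There are `α`, `β₁, …, β_k` in `Words φ` and a nonconstant polynomial `p` such that the total degree
`N` of the image of `p` under `α φ β₁ φ β₂ ⋯ φ β_k` satisfies `18 * N ^ 2 < 2 ^ k`. -/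
theorem result (a b m n : ℕ) (hm : 0 < m) (hn : 0 < n) (ham : a ∣ m) (han : a ∣ n)
    (hab : Nat.gcd a b = 1) (ha : 2 ≤ a) (hb : 2 ≤ b)
    (F G : MvPolynomial (Fin 2) ℂ)
    (h1 : convexHull ℝ (insert ((0:ℝ), (0:ℝ))
        ((fun d : Fin 2 →₀ ℕ => ((d 0 : ℝ), (d 1 : ℝ))) '' (↑F.support : Set (Fin 2 →₀ ℕ))))
        = {p : ℝ × ℝ | 0 ≤ p.2 ∧ p.2 ≤ (n : ℝ) ∧ 0 ≤ p.1 ∧ p.1 ≤ (m : ℝ) + (n : ℝ) - p.2})
    (h4 : convexHull ℝ (insert ((0:ℝ), (0:ℝ))
        ((fun d : Fin 2 →₀ ℕ => ((d 0 : ℝ), (d 1 : ℝ))) '' (↑G.support : Set (Fin 2 →₀ ℕ))))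
        = {p : ℝ × ℝ | 0 ≤ p.2 ∧ p.2 ≤ ((b * n / a : ℕ) : ℝ) ∧ 0 ≤ p.1 ∧
            p.1 ≤ ((b * m / a : ℕ) : ℝ) + ((b * n / a : ℕ) : ℝ) - p.2})
    (h5 : ∃ c : ℂ, pderiv 0 F * pderiv 1 G - pderiv 1 F * pderiv 0 G = C c)
    (φ : MvPolynomial (Fin 2) ℂ →ₐ[ℂ] MvPolynomial (Fin 2) ℂ) (hφ : φ = aeval ![F, G])
    (h : (∃ α ∈ Words φ, ∃ β ∈ Words φ, InfiniteSymmetry (α * φ * β)) ∨
      (∃ α ∈ Words φ, ∃ β ∈ Words φ, SymmetricBranchCurve (α * φ * β)) ∨
      (∃ α ∈ Words φ, ∃ L : List (MvPolynomial (Fin 2) ℂ →ₐ[ℂ] MvPolynomial (Fin 2) ℂ),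
        (∀ β ∈ L, β ∈ Words φ) ∧ ∃ p : MvPolynomial (Fin 2) ℂ, (∀ c : ℂ, p ≠ C c) ∧
          18 * ((α * (L.map fun β => φ * β).prod) p).totalDegree ^ 2 < 2 ^ L.length)) :
    pderiv 0 F * pderiv 1 G - pderiv 1 F * pderiv 0 G = 0 := by
  subst hφ
  refine trap_zero hm hn ham han hab ha hb h1 h4 h5 fun hK => ?_
  rcases h with ⟨α, hα, β, hβ, h⟩ | ⟨α, hα, β, hβ, h⟩ | ⟨α, hα, L, hL, p, hp, h⟩
  · have hKα : Kel α := kel_of_mem hK hα
    exact surj_mid hKα (surj_symm _ ((hKα.mul hK).mul (kel_of_mem hK hβ)) h)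
  · have hKα : Kel α := kel_of_mem hK hα
    exact surj_mid hKα (surj_branch _ ((hKα.mul hK).mul (kel_of_mem hK hβ)) h)
  · by_contra hns
    have h2 := growth hK hns (kel_of_mem hK hα) L (fun β hβ => kel_of_mem hK (hL β hβ)) p hp
    exact absurd h (not_lt.2 h2)

end Pool.Agent.Results.MP_2d59ee_ag.SymmetryBranchGrowth
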